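import Pool.Agent.C4N.Stm2
import Pool.Agent.Helper29_C4N.Ebl

/-!
# Squad C4N, module LIF: the linear family
-/

set_option autoImplicit false

open scoped BigOperators Classical

noncomputable section

namespace Pool.Agent.C4N.H48

open Finset
open Pool.Agent.LAG (near)

/-! ### the chains of one class -/

section one

variable {V : Type} [Fintype V]

/-- candidates -/
def LY (t : ℕ) (T : SimpleGraph V) (bt : V → Prop) (X : Finset V) (j : ℕ) (p : V → V → ℝ)
    (y v : V) : ℝ :=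
  if bt y then (∑ u ∈ univ.filter (fun u => (j = 0 ∨ u ∈ X) ∧ T.Adj u y), p u v) / t else 0

/-- places -/
def LP (g : V → Option V) (r : V → V → ℝ) (w v : V) : ℝ :=
  ∑ y ∈ univ.filter (fun y => g y = some w ∨ g w = some y), r y v

/-- the place after `j` steps -/
def pP (t : ℕ) (T : SimpleGraph V) (g : V → Option V) (bt : V → Prop) (X : Finset V) :
    ℕ → V → V → ℝ
  | 0 => fun w v => if w = v then 1 else 0
  | j + 1 => LP g (LY t T bt X j (pP t T g bt X j))

/-- the candidate in step `j` -/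
def pY (t : ℕ) (T : SimpleGraph V) (g : V → Option V) (bt : V → Prop) (X : Finset V) (j : ℕ) :
    V → V → ℝ := LY t T bt X j (pP t T g bt X j)

variable {t : ℕ} {T : SimpleGraph V} {g : V → Option V} {bt : V → Prop} {X : Finset V}

lemma pP_zero (w v : V) : pP t T g bt X 0 w v = if w = v then 1 else 0 := rfl

lemma pP_succ (j : ℕ) (w v : V) : pP t T g bt X (j + 1) w v =
    ∑ y ∈ univ.filter (fun y => g y = some w ∨ g w = some y), pY t T g bt X j y v := rfl

lemma pY_eq (j : ℕ) (y v : V) : pY t T g bt X j y v =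
    if bt y then (∑ u ∈ univ.filter (fun u => (j = 0 ∨ u ∈ X) ∧ T.Adj u y),
      pP t T g bt X j u v) / t else 0 := rfl

lemma pY_nonneg_of (j : ℕ) (h : ∀ w v, 0 ≤ pP t T g bt X j w v) (y v : V) :
    0 ≤ pY t T g bt X j y v := by
  rw [pY_eq]
  split_ifs
  · exact div_nonneg (Finset.sum_nonneg fun u _ => h u v) (Nat.cast_nonneg _)
  · exact le_rfl

lemma pP_nonneg (j : ℕ) : ∀ w v, 0 ≤ pP t T g bt X j w v := by
  induction j with
  | zero =>
    intro w v
    rw [pP_zero]
    split_ifs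
    · exact zero_le_one
    · exact le_rfl
  | succ j ih =>
    intro w v
    rw [pP_succ]
    exact Finset.sum_nonneg fun y _ => pY_nonneg_of j ih y v

lemma pY_nonneg (j : ℕ) (y v : V) : 0 ≤ pY t T g bt X j y v := pY_nonneg_of j (pP_nonneg j) y v

/-- weighted sums -/
def wt (c : V → ℝ) (p : V → V → ℝ) (w : V) : ℝ := ∑ v, c v * p w v

lemma wt_pP_zero (c : V → ℝ) (w : V) : wt c (pP t T g bt X 0) w = c w := by
  unfold wt
  rw [Finset.sum_eq_single w]
  · rw [pP_zero, if_pos rfl, mul_one]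
  · intro v _ hv
    rw [pP_zero, if_neg (Ne.symm hv), mul_zero]
  · intro h
    exact absurd (Finset.mem_univ _) h

lemma wt_pP_succ (c : V → ℝ) (j : ℕ) (w : V) : wt c (pP t T g bt X (j + 1)) w =
    ∑ y ∈ univ.filter (fun y => g y = some w ∨ g w = some y), wt c (pY t T g bt X j) y := by
  unfold wt
  rw [Finset.sum_comm]
  refine Finset.sum_congr rfl fun v _ => ?_
  rw [pP_succ, Finset.mul_sum]

lemma wt_pY (c : V → ℝ) (j : ℕ) (y : V) : wt c (pY t T g bt X j) y =
    if bt y then (∑ u ∈ univ.filter (fun u => (j = 0 ∨ u ∈ X) ∧ T.Adj u y),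
      wt c (pP t T g bt X j) u) / t else 0 := by
  unfold wt
  split_ifs with h
  · rw [Finset.sum_comm, Finset.sum_div]
    refine Finset.sum_congr rfl fun v _ => ?_
    rw [pY_eq, if_pos h, ← Finset.mul_sum, mul_div_assoc]
  · refine Finset.sum_eq_zero fun v _ => ?_
    rw [pY_eq, if_neg h, mul_zero]

lemma wt_pP_nonneg {c : V → ℝ} (hc : ∀ v, 0 ≤ c v) (j : ℕ) (w : V) :
    0 ≤ wt c (pP t T g bt X j) w :=
  Finset.sum_nonneg fun v _ => mul_nonneg (hc v) (pP_nonneg j w v)

lemma wt_pP_ne {c : V → ℝ} {j : ℕ} {u : V} (h : wt c (pP t T g bt X (j + 1)) u ≠ 0) :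
    ∃ z, (g u = some z ∨ g z = some u) ∧ bt z := by
  by_contra hcon
  apply h
  rw [wt_pP_succ]
  refine Finset.sum_eq_zero fun z hz => ?_
  rw [wt_pY, if_neg]
  intro hb
  exact hcon ⟨z, (Finset.mem_filter.mp hz).2.symm, hb⟩

lemma card_two (hg : C4K.PInj g) (w : V) :
    (univ.filter fun y => g y = some w ∨ g w = some y).card ≤ 2 := by
  have h1 : (univ.filter fun y => g y = some w ∨ g w = some y) ⊆
      (univ.filter fun y => g y = some w) ∪ (univ.filter fun y => g w = some y) := by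
    intro y hy
    rw [Finset.mem_union, Finset.mem_filter, Finset.mem_filter]
    rcases (Finset.mem_filter.mp hy).2 with h | h
    · exact Or.inl ⟨Finset.mem_univ _, h⟩
    · exact Or.inr ⟨Finset.mem_univ _, h⟩
  have h2 : (univ.filter fun y => g y = some w).card ≤ 1 := by
    rw [Finset.card_le_one]
    intro a ha b hb
    exact hg _ _ _ (Finset.mem_filter.mp ha).2 (Finset.mem_filter.mp hb).2
  have h3 : (univ.filter fun y => g w = some y).card ≤ 1 := by
    rw [Finset.card_le_one]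
    intro a ha b hb
    have h4 := (Finset.mem_filter.mp ha).2
    rw [(Finset.mem_filter.mp hb).2] at h4
    exact (Option.some.inj h4).symm
  have h4 := (Finset.card_le_card h1).trans (Finset.card_union_le _ _)
  omega

/-- the bounds -/
lemma wt_bound (hg : C4K.PInj g) {c : V → ℝ} (_hc : ∀ v, 0 ≤ c v) {E β : ℝ} (hE0 : 0 ≤ E)
    (hE : ∀ y, (∑ u ∈ univ.filter (fun u => T.Adj u y), c u) ≤ E)
    (hβ : ∀ y, ((univ.filter fun v => T.Adj y v ∧ v ∈ X ∧
      ∃ z, (g v = some z ∨ g z = some v) ∧ bt z).card : ℝ) ≤ β) (j : ℕ) :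
    (∀ y, wt c (pY t T g bt X j) y ≤ E / t * (2 * β / t) ^ j) ∧
    ∀ w, wt c (pP t T g bt X (j + 1)) w ≤ 2 * (E / t) * (2 * β / t) ^ j := by
  have ht : (0 : ℝ) ≤ t := Nat.cast_nonneg _
  have hstep : ∀ (j : ℕ) (B : ℝ), 0 ≤ B → (∀ y, wt c (pY t T g bt X j) y ≤ B) →
      ∀ w, wt c (pP t T g bt X (j + 1)) w ≤ 2 * B := by
    intro j B hB h w
    rw [wt_pP_succ]
    calc _ ≤ ∑ y ∈ univ.filter (fun y => g y = some w ∨ g w = some y), B :=
          Finset.sum_le_sum fun y _ => h y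
      _ = ((univ.filter fun y => g y = some w ∨ g w = some y).card : ℝ) * B := by
          rw [Finset.sum_const, nsmul_eq_mul]
      _ ≤ 2 * B := mul_le_mul_of_nonneg_right (by exact_mod_cast card_two hg w) hB
  induction j with
  | zero =>
    have h0 : ∀ y, wt c (pY t T g bt X 0) y ≤ E / t := by
      intro y
      rw [wt_pY]
      split_ifs
      · refine div_le_div_of_nonneg_right ?_ ht
        refine le_trans (le_of_eq ?_) (hE y)
        refine Finset.sum_congr ?_ fun u _ => wt_pP_zero c u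
        ext u
        simp
      · positivity
    refine ⟨fun y => ?_, fun w => ?_⟩
    · rw [pow_zero, mul_one]
      exact h0 y
    · rw [pow_zero, mul_one]
      exact hstep 0 _ (by positivity) h0 w
  | succ j ih =>
    have hβ0 : ∀ y : V, 0 ≤ β := fun y => le_trans (Nat.cast_nonneg _) (hβ y)
    have h0 : ∀ y, wt c (pY t T g bt X (j + 1)) y ≤ E / t * (2 * β / t) ^ (j + 1) := by
      intro y
      have hb := hβ0 y
      rw [wt_pY]
      by_cases hbt : bt y
      · rw [if_pos hbt]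
        have e1 : (∑ u ∈ univ.filter (fun u => (j + 1 = 0 ∨ u ∈ X) ∧ T.Adj u y),
            wt c (pP t T g bt X (j + 1)) u) ≤ β * (2 * (E / t) * (2 * β / t) ^ j) := by
          calc _ = ∑ u ∈ univ.filter (fun u => T.Adj y u ∧ u ∈ X ∧
                ∃ z, (g u = some z ∨ g z = some u) ∧ bt z), wt c (pP t T g bt X (j + 1)) u := by
                symm
                apply Finset.sum_subset
                · intro u hu
                  obtain ⟨-, h1, h2, -⟩ := Finset.mem_filter.mp hu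
                  exact Finset.mem_filter.mpr ⟨Finset.mem_univ _, Or.inr h2, h1.symm⟩
                · intro u hu hu'
                  obtain ⟨-, h1, h2⟩ := Finset.mem_filter.mp hu
                  by_contra hne
                  apply hu'
                  have h3 : u ∈ X := by
                    rcases h1 with h | h
                    · exact absurd h (Nat.succ_ne_zero j)
                    · exact h
                  exact Finset.mem_filter.mpr ⟨Finset.mem_univ _, h2.symm, h3, wt_pP_ne hne⟩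
            _ ≤ ∑ u ∈ univ.filter (fun u => T.Adj y u ∧ u ∈ X ∧
                ∃ z, (g u = some z ∨ g z = some u) ∧ bt z), 2 * (E / t) * (2 * β / t) ^ j :=
                Finset.sum_le_sum fun u _ => ih.2 u
            _ = ((univ.filter fun u => T.Adj y u ∧ u ∈ X ∧
                ∃ z, (g u = some z ∨ g z = some u) ∧ bt z).card : ℝ) *
                (2 * (E / t) * (2 * β / t) ^ j) := by
                rw [Finset.sum_const, nsmul_eq_mul]
            _ ≤ _ := mul_le_mul_of_nonneg_right (hβ y) (by positivity)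
        calc _ ≤ β * (2 * (E / t) * (2 * β / t) ^ j) / t := div_le_div_of_nonneg_right e1 ht
          _ = E / t * (2 * β / t) ^ (j + 1) := by
              rw [pow_succ]
              ring
      · rw [if_neg hbt]
        positivity
    refine ⟨h0, fun w => ?_⟩
    have h1 := hstep (j + 1) (E / t * (2 * β / t) ^ (j + 1)) (by
      have hb := hβ0 w
      positivity) h0 w
    linarith

/-- sum over the steps -/
lemma wt_sum (hg : C4K.PInj g) {c : V → ℝ} (hc : ∀ v, 0 ≤ c v) {E β : ℝ} (hE0 : 0 ≤ E)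
    (hE : ∀ y, (∑ u ∈ univ.filter (fun u => T.Adj u y), c u) ≤ E)
    (hβ : ∀ y, ((univ.filter fun v => T.Adj y v ∧ v ∈ X ∧
      ∃ z, (g v = some z ∨ g z = some v) ∧ bt z).card : ℝ) ≤ β) (hβ0 : 0 ≤ β)
    (hγ : 2 * β / t ≤ 1 / 2) (l : ℕ) (w : V) :
    (∑ v, c v * ∑ j ∈ range l, (pY t T g bt X j w v + pP t T g bt X (j + 1) w v)) ≤
      6 * (E / t) := by
  have ht : (0 : ℝ) ≤ t := Nat.cast_nonneg _
  have h1 : (∑ v, c v * ∑ j ∈ range l, (pY t T g bt X j w v + pP t T g bt X (j + 1) w v)) =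
      ∑ j ∈ range l, (wt c (pY t T g bt X j) w + wt c (pP t T g bt X (j + 1)) w) := by
    unfold wt
    simp only [Finset.mul_sum]
    rw [Finset.sum_comm]
    refine Finset.sum_congr rfl fun j _ => ?_
    rw [← Finset.sum_add_distrib]
    exact Finset.sum_congr rfl fun v _ => mul_add _ _ _
  rw [h1]
  have hγ0 : 0 ≤ 2 * β / t := by positivity
  have h2 : ∀ n : ℕ, (∑ j ∈ range n, (2 * β / t) ^ j) ≤ 2 - (1 / 2) ^ n * 2 := by
    intro n
    induction n with
    | zero => norm_num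
    | succ n ih =>
      rw [Finset.sum_range_succ, pow_succ]
      have h3 : (2 * β / t) ^ n ≤ (1 / 2) ^ n := pow_le_pow_left₀ hγ0 hγ n
      linarith
  calc _ ≤ ∑ j ∈ range l, 3 * (E / t) * (2 * β / t) ^ j := by
        refine Finset.sum_le_sum fun j _ => ?_
        obtain ⟨b1, b2⟩ := wt_bound (t := t) (T := T) (bt := bt) (X := X) hg hc hE0 hE hβ j
        have := b1 w
        have := b2 w
        linarith
    _ = 3 * (E / t) * ∑ j ∈ range l, (2 * β / t) ^ j := by rw [Finset.mul_sum]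
    _ ≤ 3 * (E / t) * 2 := by
        apply mul_le_mul_of_nonneg_left _ (by positivity)
        have := h2 l
        have h5 : (0 : ℝ) ≤ (1 / 2) ^ l * 2 := by positivity
        linarith
    _ = 6 * (E / t) := by ring

/-! the supports -/

omit [Fintype V] in
lemma near_step {N : SimpleGraph V} {r : ℕ} {w u v : V} (h : N.Adj w u) (h' : near N r u v) :
    near N (r + 1) w v := by
  obtain ⟨p, hp⟩ := h'
  exact ⟨SimpleGraph.Walk.cons h p, by rw [SimpleGraph.Walk.length_cons]; omega⟩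

omit [Fintype V] in
lemma near_mono' {N : SimpleGraph V} {r r' : ℕ} {u v : V} (h : near N r u v) (hr : r ≤ r') :
    near N r' u v := by
  obtain ⟨p, hp⟩ := h
  exact ⟨p, hp.trans hr⟩

omit [Fintype V] in
lemma near_symm' {N : SimpleGraph V} {r : ℕ} {u v : V} (h : near N r u v) : near N r v u := by
  obtain ⟨p, hp⟩ := h
  exact ⟨p.reverse, by rw [SimpleGraph.Walk.length_reverse]; exact hp⟩

lemma supp_near {N : SimpleGraph V} (hTN : T ≤ N) (hgN : ∀ x y, g x = some y → N.Adj x y) (j : ℕ) :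
    (∀ w v, pP t T g bt X j w v ≠ 0 → near N (2 * j) w v) ∧
    ∀ y v, pY t T g bt X j y v ≠ 0 → near N (2 * j + 1) y v := by
  have hstep : ∀ j : ℕ, (∀ w v, pP t T g bt X j w v ≠ 0 → near N (2 * j) w v) →
      ∀ y v, pY t T g bt X j y v ≠ 0 → near N (2 * j + 1) y v := by
    intro j ih y v h
    rw [pY_eq] at h
    split_ifs at h with hb
    · have h1 : (∑ u ∈ univ.filter (fun u => (j = 0 ∨ u ∈ X) ∧ T.Adj u y),
          pP t T g bt X j u v) ≠ 0 := by
        intro h2
        rw [h2, zero_div] at h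
        exact h rfl
      obtain ⟨u, hu, hne⟩ := Finset.exists_ne_zero_of_sum_ne_zero h1
      obtain ⟨-, -, hT⟩ := Finset.mem_filter.mp hu
      exact near_step (hTN hT.symm) (ih u v hne)
    · exact absurd rfl h
  induction j with
  | zero =>
    have h0 : ∀ w v, pP t T g bt X 0 w v ≠ 0 → near N (2 * 0) w v := by
      intro w v h
      rw [pP_zero] at h
      split_ifs at h with hwv
      · subst hwv
        exact ⟨SimpleGraph.Walk.nil, by simp⟩
      · exact absurd rfl h
    exact ⟨h0, hstep 0 h0⟩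
  | succ j ih =>
    have h0 : ∀ w v, pP t T g bt X (j + 1) w v ≠ 0 → near N (2 * (j + 1)) w v := by
      intro w v h
      rw [pP_succ] at h
      obtain ⟨y, hy, hne⟩ := Finset.exists_ne_zero_of_sum_ne_zero h
      have h1 := hstep j ih.1 y v hne
      have h2 : N.Adj w y := by
        rcases (Finset.mem_filter.mp hy).2 with h | h
        · exact (hgN _ _ h).symm
        · exact hgN _ _ h
      exact near_step h2 h1
    exact ⟨h0, hstep (j + 1) h0⟩

end one

/-! ### numbers -/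

lemma ev_le (C a : ℝ) (ha : 0 < a) : ∃ k0 : ℕ, ∀ k : ℕ, k0 ≤ k → C ≤ (k : ℝ) ^ a := by
  have h1 := (tendsto_rpow_atTop ha).comp tendsto_natCast_atTop_atTop
  obtain ⟨k0, hk0⟩ := Filter.eventually_atTop.mp (h1.eventually (Filter.eventually_ge_atTop C))
  exact ⟨k0, hk0⟩

/-- the numbers of the module -/
lemma nums (l : ℕ) (c2 : ℝ) (hl : 1 ≤ l) (hc : 0 < c2) (hc' : c2 ≤ 1 / 1000) :
    ∃ k0 : ℕ, ∀ k K s q t : ℕ, k0 ≤ k → K ≤ k → k ≤ 2 * K → s = ss k →
      q = ⌈(k : ℝ) ^ (c2 / 16)⌉₊ → t = ⌊((s : ℝ) / K) ^ 2 * s / q ^ 2⌋₊ →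
      2 ≤ k ∧ 1 ≤ t ∧ 0 < (s : ℝ) ∧ 1 / (s : ℝ) ≤ (k : ℝ) ^ (-0.99 : ℝ) ∧
      100 * (s : ℝ) ≤ (k : ℝ) ^ (2 : ℝ) ∧
      2 * (((s : ℝ) / K) ^ 2 * (s * (k : ℝ) ^ (-(c2 / 2)))) / t ≤
        16 * (k : ℝ) ^ (-(3 * c2 / 8)) ∧ 16 * (k : ℝ) ^ (-(3 * c2 / 8)) ≤ 1 / 2 ∧
      6 * (s : ℝ) / t * (k : ℝ) ^ (-0.001 : ℝ) ≤ (k : ℝ) ^ (-0.0004 : ℝ) ∧
      2 * (s : ℝ) / t * (16 * (k : ℝ) ^ (-(3 * c2 / 8))) ^ (l - 1) * (k : ℝ) ^ (-0.001 : ℝ) ≤
        (k : ℝ) ^ (-(c2 / 4 * ((l : ℝ) - 1))) := by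
  obtain ⟨k1, h1⟩ := ev_le 100 (1 / 10000) (by norm_num)
  obtain ⟨k2, h2⟩ := ev_le 32 (3 * c2 / 8) (by positivity)
  obtain ⟨k3, h3⟩ := ev_le (16 ^ l * 100) 0.0002 (by norm_num)
  refine ⟨max (max k1 k2) (max k3 2), ?_⟩
  intro k K s q t hk hKk hkK hs hq ht
  have hk1 : k1 ≤ k := le_trans (le_trans (le_max_left _ _) (le_max_left _ _)) hk
  have hk2 : k2 ≤ k := le_trans (le_trans (le_max_right _ _) (le_max_left _ _)) hk
  have hk3 : k3 ≤ k := le_trans (le_trans (le_max_left _ _) (le_max_right _ _)) hk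
  have hk4 : 2 ≤ k := le_trans (le_trans (le_max_right _ _) (le_max_right _ _)) hk
  replace h1 := h1 k hk1
  replace h2 := h2 k hk2
  replace h3 := h3 k hk3
  obtain ⟨x, hx⟩ : ∃ x : ℝ, x = (k : ℝ) := ⟨_, rfl⟩
  rw [← hx] at h1 h2 h3 ⊢
  have hx1 : (1 : ℝ) ≤ x := by rw [hx]; exact_mod_cast (by omega : 1 ≤ k)
  have hx0 : (0 : ℝ) < x := by linarith
  have hpow : ∀ a b : ℝ, a ≤ b → x ^ a ≤ x ^ b := fun a b h => Real.rpow_le_rpow_of_exponent_le hx1 h
  have hpos : ∀ a : ℝ, 0 < x ^ a := fun a => Real.rpow_pos_of_pos hx0 a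
  have hone : ∀ a : ℝ, 0 ≤ a → 1 ≤ x ^ a := fun a h => Real.one_le_rpow hx1 h
  have hadd : ∀ a b : ℝ, x ^ (a + b) = x ^ a * x ^ b := fun a b => Real.rpow_add hx0 a b
  -- the size of `s`
  have hs1 : x ^ (0.9999 : ℝ) ≤ s := by
    rw [hs, ss, ← hx]
    refine le_trans (le_of_eq ?_) (Nat.le_ceil _)
    norm_num
  have hs2 : (s : ℝ) ≤ 2 * x ^ (0.9999 : ℝ) := by
    rw [hs, ss, ← hx]
    have e1 := (Nat.ceil_lt_add_one (hpos (1 - 1 / 10000)).le).le
    have e2 : x ^ (1 - 1 / 10000 : ℝ) = x ^ (0.9999 : ℝ) := by norm_num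
    have e3 := hone 0.9999 (by norm_num)
    rw [e2] at e1 ⊢
    linarith
  have hs0 : (0 : ℝ) < s := lt_of_lt_of_le (hpos _) hs1
  have hK0 : 0 < K := by omega
  have hK0' : (0 : ℝ) < K := by exact_mod_cast hK0
  have hKx : (K : ℝ) ≤ x := by rw [hx]; exact_mod_cast hKk
  have hxK : x ≤ 2 * K := by rw [hx]; exact_mod_cast hkK
  -- the size of `q`
  have hq1 : x ^ (c2 / 16) ≤ q := by
    rw [hq, ← hx]
    exact Nat.le_ceil _
  have hq2 : (q : ℝ) ≤ 2 * x ^ (c2 / 16) := by
    rw [hq, ← hx]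
    have e1 := (Nat.ceil_lt_add_one (hpos (c2 / 16)).le).le
    have e3 := hone (c2 / 16) (by positivity)
    linarith
  have hq0 : (0 : ℝ) < q := lt_of_lt_of_le (hpos _) hq1
  have hqq : (q : ℝ) ^ 2 ≤ 4 * x ^ (c2 / 8) := by
    have e1 : x ^ (c2 / 8) = x ^ (c2 / 16) * x ^ (c2 / 16) := by
      rw [← hadd]
      congr 1
      ring
    rw [e1]
    have e2 := hpos (c2 / 16)
    nlinarith
  -- the size of `s / K`
  have hb1 : x ^ (-0.0001 : ℝ) ≤ (s : ℝ) / K := by
    rw [le_div_iff₀ hK0']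
    calc x ^ (-0.0001 : ℝ) * K ≤ x ^ (-0.0001 : ℝ) * x :=
          mul_le_mul_of_nonneg_left hKx (hpos _).le
      _ = x ^ (0.9999 : ℝ) := by
          have : x ^ (-0.0001 : ℝ) * x = x ^ (-0.0001 : ℝ) * x ^ (1 : ℝ) := by rw [Real.rpow_one]
          rw [this, ← hadd]
          norm_num
      _ ≤ s := hs1
  obtain ⟨b, hb⟩ : ∃ b : ℝ, b = (s : ℝ) / K := ⟨_, rfl⟩
  rw [← hb] at hb1 ht ⊢
  have hb0 : 0 < b := lt_of_lt_of_le (hpos _) hb1
  have hbb : x ^ (-0.0002 : ℝ) ≤ b ^ 2 := by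
    have e1 : x ^ (-0.0002 : ℝ) = x ^ (-0.0001 : ℝ) * x ^ (-0.0001 : ℝ) := by
      rw [← hadd]
      norm_num
    rw [e1, pow_two]
    exact mul_le_mul hb1 hb1 (hpos _).le hb0.le
  -- the size of `t`
  have hB : 2 ≤ b ^ 2 * s / q ^ 2 := by
    rw [le_div_iff₀ (by positivity)]
    calc 2 * (q : ℝ) ^ 2 ≤ 2 * (4 * x ^ (c2 / 8)) := by linarith
      _ ≤ 8 * x ^ (0.01 : ℝ) := by
          have := hpow (c2 / 8) 0.01 (by linarith)
          linarith
      _ ≤ x ^ (1 / 10000 : ℝ) * x ^ (0.01 : ℝ) :=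
          mul_le_mul_of_nonneg_right (by linarith) (hpos _).le
      _ ≤ x ^ (-0.0002 : ℝ) * x ^ (0.9999 : ℝ) := by
          rw [← hadd, ← hadd]
          exact hpow _ _ (by norm_num)
      _ ≤ b ^ 2 * s := mul_le_mul hbb hs1 (hpos _).le (by positivity)
  have ht1 : b ^ 2 * s / q ^ 2 / 2 ≤ t := by
    have e1 := Nat.lt_floor_add_one (b ^ 2 * s / q ^ 2)
    rw [← ht] at e1
    linarith
  have ht2 : 1 ≤ t := by
    have : (1 : ℝ) ≤ t := by linarith
    exact_mod_cast this
  have ht0 : (0 : ℝ) < t := by exact_mod_cast ht2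
  have hts : (s : ℝ) / t ≤ 8 * x ^ (0.000325 : ℝ) := by
    rw [div_le_iff₀ ht0]
    have e1 : (s : ℝ) * (b ^ 2) ≤ 2 * t * (4 * x ^ (c2 / 8)) := by
      have e2 : b ^ 2 * s ≤ 2 * t * (q : ℝ) ^ 2 := by
        have e3 : b ^ 2 * s / q ^ 2 ≤ 2 * t := by linarith
        rw [div_le_iff₀ (by positivity)] at e3
        exact e3
      calc (s : ℝ) * (b ^ 2) = b ^ 2 * s := mul_comm _ _
        _ ≤ 2 * t * (q : ℝ) ^ 2 := e2
        _ ≤ _ := mul_le_mul_of_nonneg_left hqq (by positivity)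
    have e4 : (s : ℝ) * x ^ (-0.0002 : ℝ) ≤ 2 * t * (4 * x ^ (c2 / 8)) :=
      (mul_le_mul_of_nonneg_left hbb hs0.le).trans e1
    have e5 : (s : ℝ) = s * x ^ (-0.0002 : ℝ) * x ^ (0.0002 : ℝ) := by
      rw [mul_assoc, ← hadd]
      norm_num
    rw [e5]
    calc (s : ℝ) * x ^ (-0.0002 : ℝ) * x ^ (0.0002 : ℝ)
        ≤ 2 * t * (4 * x ^ (c2 / 8)) * x ^ (0.0002 : ℝ) :=
          mul_le_mul_of_nonneg_right e4 (hpos _).le
      _ = 8 * (x ^ (c2 / 8) * x ^ (0.0002 : ℝ)) * t := by ring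
      _ ≤ 8 * x ^ (0.000325 : ℝ) * t := by
          apply mul_le_mul_of_nonneg_right _ ht0.le
          rw [← hadd]
          apply mul_le_mul_of_nonneg_left _ (by norm_num)
          apply hpow
          norm_num
          linarith
  have h99 : x ^ (0.99 : ℝ) ≤ s := (hpow _ _ (by norm_num)).trans hs1
  refine ⟨hk4, ht2, hs0, ?_, ?_, ?_, ?_, ?_, ?_⟩
  · rw [Real.rpow_neg hx0.le, ← one_div]
    exact one_div_le_one_div_of_le (hpos _) h99
  · calc 100 * (s : ℝ) ≤ 100 * (2 * x ^ (0.9999 : ℝ)) := by linarith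
      _ ≤ x ^ (1 / 10000 : ℝ) * (2 * x ^ (0.9999 : ℝ)) :=
          mul_le_mul_of_nonneg_right h1 (by have := hpos 0.9999; linarith)
      _ = 2 * x := by
          have : x ^ (1 / 10000 : ℝ) * (2 * x ^ (0.9999 : ℝ)) =
            2 * (x ^ (1 / 10000 : ℝ) * x ^ (0.9999 : ℝ)) := by ring
          rw [this, ← hadd]
          norm_num
      _ ≤ x * x := by
          apply mul_le_mul_of_nonneg_right _ hx0.le
          rw [hx]
          exact_mod_cast hk4
      _ = x ^ (2 : ℝ) := by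
          rw [Real.rpow_two, pow_two]
  · rw [div_le_iff₀ ht0]
    have e2 : b ^ 2 * s ≤ 2 * t * (q : ℝ) ^ 2 := by
      have e3 : b ^ 2 * s / q ^ 2 ≤ 2 * t := by linarith
      rw [div_le_iff₀ (by positivity)] at e3
      exact e3
    have e3 : b ^ 2 * s ≤ 2 * t * (4 * x ^ (c2 / 8)) :=
      e2.trans (mul_le_mul_of_nonneg_left hqq (by positivity))
    calc 2 * (b ^ 2 * (s * x ^ (-(c2 / 2)))) = 2 * (b ^ 2 * s) * x ^ (-(c2 / 2)) := by ring
      _ ≤ 2 * (2 * t * (4 * x ^ (c2 / 8))) * x ^ (-(c2 / 2)) :=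
          mul_le_mul_of_nonneg_right (by linarith) (hpos _).le
      _ = 16 * (x ^ (c2 / 8) * x ^ (-(c2 / 2))) * t := by ring
      _ = 16 * x ^ (-(3 * c2 / 8)) * t := by
          rw [← hadd]
          congr 3
          ring
  · rw [Real.rpow_neg hx0.le, ← div_eq_mul_inv, div_le_iff₀ (hpos _)]
    linarith
  · have e0 : 6 * (s : ℝ) / t = 6 * (s / t) := by ring
    rw [e0]
    have e9 : (48 : ℝ) ≤ x ^ (0.0002 : ℝ) := by
      refine le_trans ?_ h3
      have : (1 : ℝ) ≤ 16 ^ l := one_le_pow₀ (by norm_num)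
      linarith
    calc 6 * ((s : ℝ) / t) * x ^ (-0.001 : ℝ) ≤ 6 * (8 * x ^ (0.000325 : ℝ)) * x ^ (-0.001 : ℝ) :=
          mul_le_mul_of_nonneg_right (by linarith) (hpos _).le
      _ = 48 * (x ^ (0.000325 : ℝ) * x ^ (-0.001 : ℝ)) := by ring
      _ ≤ x ^ (0.0002 : ℝ) * (x ^ (0.000325 : ℝ) * x ^ (-0.001 : ℝ)) := by
          apply mul_le_mul_of_nonneg_right e9
          have := hpos 0.000325
          have := hpos (-0.001)
          positivity
      _ ≤ x ^ (-0.0004 : ℝ) := by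
          rw [← hadd, ← hadd]
          exact hpow _ _ (by norm_num)
  · have e0 : 2 * (s : ℝ) / t = 2 * (s / t) := by ring
    rw [e0, mul_pow, ← Real.rpow_natCast (x ^ (-(3 * c2 / 8))), ← Real.rpow_mul hx0.le]
    have e1 : (((l - 1 : ℕ) : ℝ)) = (l : ℝ) - 1 := by
      rw [Nat.cast_sub hl, Nat.cast_one]
    rw [e1]
    have hl1 : (0 : ℝ) ≤ (l : ℝ) - 1 := by
      have : (1 : ℝ) ≤ l := by exact_mod_cast hl
      linarith
    have e9 : (16 : ℝ) * 16 ^ (l - 1) ≤ x ^ (0.0002 : ℝ) := by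
      refine le_trans ?_ h3
      have e10 : (16 : ℝ) * 16 ^ (l - 1) = 16 ^ l := by
        rw [← pow_succ']
        congr 1
        omega
      rw [e10]
      have : (1 : ℝ) ≤ 16 ^ l := one_le_pow₀ (by norm_num)
      linarith
    have hA := hpos (-(3 * c2 / 8) * ((l : ℝ) - 1))
    have hA2 := hpos (-0.001)
    have hA3 := hpos 0.000325
    have hA4 : (0 : ℝ) < 16 ^ (l - 1) := by positivity
    calc 2 * ((s : ℝ) / t) * (16 ^ (l - 1) * x ^ (-(3 * c2 / 8) * ((l : ℝ) - 1))) *
          x ^ (-0.001 : ℝ)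
        ≤ 2 * (8 * x ^ (0.000325 : ℝ)) * (16 ^ (l - 1) * x ^ (-(3 * c2 / 8) * ((l : ℝ) - 1))) *
          x ^ (-0.001 : ℝ) := by
          apply mul_le_mul_of_nonneg_right _ hA2.le
          apply mul_le_mul_of_nonneg_right _ (by positivity)
          linarith
      _ = (16 * 16 ^ (l - 1)) * (x ^ (0.000325 : ℝ) * (x ^ (-(3 * c2 / 8) * ((l : ℝ) - 1)) *
          x ^ (-0.001 : ℝ))) := by ring
      _ ≤ x ^ (0.0002 : ℝ) * (x ^ (0.000325 : ℝ) * (x ^ (-(3 * c2 / 8) * ((l : ℝ) - 1)) *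
          x ^ (-0.001 : ℝ))) := by
          apply mul_le_mul_of_nonneg_right e9
          positivity
      _ ≤ x ^ (-(c2 / 4 * ((l : ℝ) - 1))) := by
          rw [← hadd, ← hadd, ← hadd]
          apply hpow
          have : 0 ≤ c2 * ((l : ℝ) - 1) := mul_nonneg hc.le hl1
          nlinarith

lemma delta_sum {V : Type} [Fintype V] (v0 : V) (F : V → ℝ) :
    (∑ v, (if v = v0 then (1 : ℝ) else 0) * F v) = F v0 := by
  rw [Finset.sum_eq_single v0]
  · rw [if_pos rfl, one_mul]
  · intro v _ hv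
    rw [if_neg hv, zero_mul]
  · intro h
    exact absurd (Finset.mem_univ _) h

lemma delta_le {V : Type} [Fintype V] (v0 : V) (S : Finset V) :
    (∑ u ∈ S, (if u = v0 then (1 : ℝ) else 0)) ≤ 1 := by
  rw [Finset.sum_ite_eq']
  split_ifs
  · exact le_rfl
  · exact zero_le_one

/-- **LIF** -/
theorem lif : LIFStmt := by
  intro l c2 hl hc hc'
  obtain ⟨k0, hk0⟩ := nums l c2 hl hc hc'
  refine ⟨6 * l + 2, k0, ?_⟩
  intro k K s q t n hk hKk hkK hs hq ht hn V _ N T f bth X hTN hdN hdT hf hfN hH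
  obtain ⟨hk2, ht1, hs0, n1, n2, n3, n4, n5, n6⟩ := hk0 k K s q t hk hKk hkK hs hq ht
  have ht0 : (0 : ℝ) < t := by exact_mod_cast ht1
  have hk1' : (1 : ℝ) ≤ k := by exact_mod_cast (by omega : 1 ≤ k)
  have hkp : (0 : ℝ) < k := by linarith
  obtain ⟨β, hβd⟩ : ∃ β : ℝ, β = ((s : ℝ) / K) ^ 2 * (s * (k : ℝ) ^ (-(c2 / 2))) := ⟨_, rfl⟩
  obtain ⟨G, hGd⟩ : ∃ G : ℝ, G = 16 * (k : ℝ) ^ (-(3 * c2 / 8)) := ⟨_, rfl⟩
  rw [← hβd, ← hGd] at n3
  rw [← hGd] at n4 n6
  have hG0 : 0 < G := by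
    rw [hGd]
    have := Real.rpow_pos_of_pos hkp (-(3 * c2 / 8))
    linarith
  have hβ0 : 0 ≤ β := by
    rw [hβd]
    have := Real.rpow_pos_of_pos hkp (-(c2 / 2))
    positivity
  have hγ0 : 0 ≤ 2 * β / t := by positivity
  have hβ : ∀ i y, ((univ.filter fun v => T.Adj y v ∧ v ∈ X ∧
      ∃ z, (f i v = some z ∨ f i z = some v) ∧ bth i z).card : ℝ) ≤ β := by
    intro i y
    have h1 := hH i y
    rw [← hβd] at h1
    refine le_trans (le_of_eq ?_) h1
    rw [← Set.ncard_coe_finset]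
    congr 2
    ext v
    simp
  have hT1 : ∀ y, (∑ u ∈ univ.filter (fun u => T.Adj u y), (1 : ℝ)) ≤ 100 * s := by
    intro y
    have h1 := H29.card_nb T y
    have h2 : (univ.filter fun u => T.Adj u y) = univ.filter fun u => T.Adj y u := by
      ext u
      simp only [Finset.mem_filter, Finset.mem_univ, true_and]
      exact T.adj_comm u y
    rw [Finset.sum_const, nsmul_eq_mul, mul_one, h2, h1]
    exact_mod_cast hdT y
  have hT2 : ∀ v0 y, (∑ u ∈ univ.filter (fun u => T.Adj u y),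
      (if u = v0 then (1 : ℝ) else 0)) ≤ 1 := fun v0 y => delta_le v0 _
  have hd0 : ∀ v0 v : V, 0 ≤ (if v = v0 then (1 : ℝ) else 0) := by
    intro v0 v
    split_ifs <;> norm_num
  -- the bounds of the chains
  have m2 : ∀ i w v0, (∑ j ∈ range l, (pY t T (f i) (bth i) X j w v0 +
      pP t T (f i) (bth i) X (j + 1) w v0)) ≤ 6 * (1 / t) := by
    intro i w v0
    have h1 := wt_sum (t := t) (T := T) (bt := bth i) (X := X) (hf i) (hd0 v0) zero_le_one (hT2 v0)
      (hβ i) hβ0 (n3.trans n4) l w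
    rw [delta_sum v0 (fun v => ∑ j ∈ range l, (pY t T (f i) (bth i) X j w v +
      pP t T (f i) (bth i) X (j + 1) w v))] at h1
    exact h1
  have s2 : ∀ i w, (∑ v, ∑ j ∈ range l, (pY t T (f i) (bth i) X j w v +
      pP t T (f i) (bth i) X (j + 1) w v)) ≤ 6 * (100 * s / t) := by
    intro i w
    have h1 := wt_sum (t := t) (T := T) (bt := bth i) (X := X) (hf i) (c := fun _ => 1)
      (fun _ => zero_le_one) (E := 100 * s) (by positivity) hT1 (hβ i) hβ0 (n3.trans n4) l w
    simp only [one_mul] at h1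
    exact h1
  have hll : l - 1 + 1 = l := by omega
  have hGl : (2 * β / t) ^ (l - 1) ≤ G ^ (l - 1) := pow_le_pow_left₀ hγ0 n3 _
  have m3 : ∀ i w v0, pP t T (f i) (bth i) X l w v0 ≤ 2 * (1 / t) * G ^ (l - 1) := by
    intro i w v0
    have h1 := (wt_bound (t := t) (T := T) (bt := bth i) (X := X) (hf i) (hd0 v0) zero_le_one
      (hT2 v0) (hβ i) (l - 1)).2 w
    rw [hll] at h1
    unfold wt at h1
    rw [delta_sum v0 (fun v => pP t T (f i) (bth i) X l w v)] at h1
    exact h1.trans (mul_le_mul_of_nonneg_left hGl (by positivity))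
  have s3 : ∀ i w, (∑ v, pP t T (f i) (bth i) X l w v) ≤ 2 * (100 * s / t) * G ^ (l - 1) := by
    intro i w
    have h1 := (wt_bound (t := t) (T := T) (bt := bth i) (X := X) (hf i) (c := fun _ => 1)
      (fun _ => zero_le_one) (E := 100 * s) (by positivity) hT1 (hβ i) (l - 1)).2 w
    rw [hll] at h1
    unfold wt at h1
    simp only [one_mul] at h1
    exact h1.trans (mul_le_mul_of_nonneg_left hGl (by positivity))
  have D2 : 0 < 6 * (s : ℝ) / t := by positivity
  have D3 : 0 < 2 * (s : ℝ) / t * G ^ (l - 1) := by positivity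
  obtain ⟨a, ha⟩ : ∃ a : Fin 3 × V → Fin n → V → ℝ, a = fun u c v =>
    if u.1 = 0 then (if T.Adj u.2 v then (1 : ℝ) else 0) / s
    else if u.1 = 1 then (∑ j ∈ range l, (pY t T (f c) (bth c) X j u.2 v +
      pP t T (f c) (bth c) X (j + 1) u.2 v)) / (6 * s / t)
    else pP t T (f c) (bth c) X l u.2 v / (2 * s / t * G ^ (l - 1)) := ⟨_, rfl⟩
  have ha0 : ∀ x c v, a (0, x) c v = (if T.Adj x v then (1 : ℝ) else 0) / s := by
    intro x c v
    rw [ha]
    rfl
  have ha1 : ∀ w c v, a (1, w) c v = (∑ j ∈ range l, (pY t T (f c) (bth c) X j w v +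
      pP t T (f c) (bth c) X (j + 1) w v)) / (6 * s / t) := by
    intro w c v
    rw [ha]
    rfl
  have ha2 : ∀ w c v, a (2, w) c v =
      pP t T (f c) (bth c) X l w v / (2 * s / t * G ^ (l - 1)) := by
    intro w c v
    rw [ha]
    rfl
  have hcase : ∀ u : Fin 3 × V, (∃ x, u = (0, x)) ∨ (∃ x, u = (1, x)) ∨ ∃ x, u = (2, x) := by
    rintro ⟨i, x⟩
    fin_cases i
    · exact Or.inl ⟨x, rfl⟩
    · exact Or.inr (Or.inl ⟨x, rfl⟩)
    · exact Or.inr (Or.inr ⟨x, rfl⟩)
  have hsup : ∀ u c v, a u c v ≠ 0 → near N (2 * l) u.2 v := by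
    intro u c v h
    rcases hcase u with ⟨x, rfl⟩ | ⟨x, rfl⟩ | ⟨x, rfl⟩
    · rw [ha0] at h
      by_cases hT : T.Adj x v
      · exact near_mono' (near_step (hTN hT) (⟨SimpleGraph.Walk.nil, le_rfl⟩ : near N 0 v v))
          (by omega)
      · rw [if_neg hT, zero_div] at h
        exact absurd rfl h
    · rw [ha1] at h
      have h1 : (∑ j ∈ range l, (pY t T (f c) (bth c) X j x v +
          pP t T (f c) (bth c) X (j + 1) x v)) ≠ 0 := by
        intro h2
        rw [h2, zero_div] at h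
        exact h rfl
      obtain ⟨j, hj, hne⟩ := Finset.exists_ne_zero_of_sum_ne_zero h1
      have hj' := Finset.mem_range.mp hj
      by_cases h3 : pY t T (f c) (bth c) X j x v = 0
      · rw [h3, zero_add] at hne
        exact near_mono' ((supp_near hTN (hfN c) (j + 1)).1 x v hne) (by omega)
      · exact near_mono' ((supp_near hTN (hfN c) j).2 x v h3) (by omega)
    · rw [ha2] at h
      have h1 : pP t T (f c) (bth c) X l x v ≠ 0 := by
        intro h2
        rw [h2, zero_div] at h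
        exact h rfl
      exact near_mono' ((supp_near hTN (hfN c) l).1 x v h1) le_rfl
  have hball : ∀ v, (((univ.filter fun x => near N (2 * l) v x).card : ℕ) : ℝ) ≤
      (k : ℝ) ^ (6 * l) := by
    intro v
    have h1 := H29.ball N (3 * k) hdN (2 * l) v
    have h2 : (3 * k + 1) ^ (2 * l) ≤ (k ^ 3) ^ (2 * l) := by
      apply Nat.pow_le_pow_left
      have : 4 * k ≤ k ^ 3 := by
        have : 2 * 2 ≤ k * k := Nat.mul_le_mul hk2 hk2
        nlinarith
      omega
    have h3 : (k ^ 3) ^ (2 * l) = k ^ (6 * l) := by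
      rw [← pow_mul]
      congr 1
      ring
    rw [h3] at h2
    exact_mod_cast h1.trans h2
  have hBr : (k : ℝ) ^ (((6 * l + 2 : ℕ) : ℝ)) = (k : ℝ) ^ (6 * l + 2) := Real.rpow_natCast _ _
  refine ⟨fun i j y v => pY t T (f i) (bth i) X j y v, fun i j w v => pP t T (f i) (bth i) X j w v,
    Fin 3 × V, inferInstance, a, ?_, ?_, ?_⟩
  · refine ⟨?_, ?_, ?_, ?_, ?_⟩
    · intro u c v
      rcases hcase u with ⟨x, rfl⟩ | ⟨x, rfl⟩ | ⟨x, rfl⟩
      · rw [ha0]
        split_ifs <;> positivity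
      · rw [ha1]
        exact div_nonneg (Finset.sum_nonneg fun j _ => add_nonneg (pY_nonneg j x v)
          (pP_nonneg (j + 1) x v)) D2.le
      · rw [ha2]
        exact div_nonneg (pP_nonneg l x v) D3.le
    · intro u c v
      refine le_trans ?_ n1
      rcases hcase u with ⟨x, rfl⟩ | ⟨x, rfl⟩ | ⟨x, rfl⟩
      · rw [ha0]
        apply div_le_div_of_nonneg_right _ hs0.le
        split_ifs
        · exact le_rfl
        · exact zero_le_one
      · rw [ha1, div_le_iff₀ D2]
        refine (m2 c x v).trans (le_of_eq ?_)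
        field_simp
      · rw [ha2, div_le_iff₀ D3]
        refine (m3 c x v).trans (le_of_eq ?_)
        field_simp
    · intro u c
      rcases hcase u with ⟨x, rfl⟩ | ⟨x, rfl⟩ | ⟨x, rfl⟩
      · simp only [ha0]
        rw [← Finset.sum_div, div_le_iff₀ hs0]
        refine le_trans (le_of_eq ?_) (hT1 x)
        rw [Finset.sum_filter]
        refine Finset.sum_congr rfl fun v _ => ?_
        by_cases h : T.Adj x v
        · rw [if_pos h, if_pos h.symm]
        · rw [if_neg h, if_neg fun h' => h h'.symm]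
      · simp only [ha1]
        rw [← Finset.sum_div, div_le_iff₀ D2]
        refine (s2 c x).trans (le_of_eq ?_)
        field_simp
      · simp only [ha2]
        rw [← Finset.sum_div, div_le_iff₀ D3]
        refine (s3 c x).trans (le_of_eq ?_)
        field_simp
    · intro u
      rw [hBr]
      have h1 : (univ.filter fun v => ∃ c, a u c v ≠ 0) ⊆ univ.filter fun v => near N (2 * l) u.2 v := by
        intro v hv
        obtain ⟨-, c, hcv⟩ := Finset.mem_filter.mp hv
        exact Finset.mem_filter.mpr ⟨Finset.mem_univ _, hsup u c v hcv⟩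
      have h2 : (((univ.filter fun v => ∃ c, a u c v ≠ 0).card : ℕ) : ℝ) ≤
          ((univ.filter fun v => near N (2 * l) u.2 v).card : ℝ) := by
        exact_mod_cast Finset.card_le_card h1
      refine h2.trans ((hball u.2).trans ?_)
      exact pow_le_pow_right₀ hk1' (by omega)
    · intro v
      rw [hBr]
      have h1 : (univ.filter fun u : Fin 3 × V => ∃ c, a u c v ≠ 0) ⊆
          (univ : Finset (Fin 3)) ×ˢ univ.filter fun w => near N (2 * l) v w := by
        intro u hu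
        obtain ⟨-, c, hcv⟩ := Finset.mem_filter.mp hu
        exact Finset.mem_product.mpr ⟨Finset.mem_univ _,
          Finset.mem_filter.mpr ⟨Finset.mem_univ _, near_symm' (hsup u c v hcv)⟩⟩
      have h2 := Finset.card_le_card h1
      rw [Finset.card_product, Finset.card_univ, Fintype.card_fin] at h2
      have h3 : (((univ.filter fun u : Fin 3 × V => ∃ c, a u c v ≠ 0).card : ℕ) : ℝ) ≤
          3 * ((univ.filter fun w => near N (2 * l) v w).card : ℝ) := by
        exact_mod_cast h2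
      refine h3.trans ?_
      have h4 := hball v
      have h5 : (3 : ℝ) ≤ (k : ℝ) ^ 2 := by
        have : (2 : ℝ) ≤ k := by exact_mod_cast hk2
        nlinarith
      rw [pow_add, mul_comm ((k : ℝ) ^ (6 * l))]
      exact mul_le_mul h5 h4 (Nat.cast_nonneg _) (by positivity)
  · refine ⟨fun i j y v => ⟨pY_nonneg j y v, pP_nonneg j y v⟩, ?_, ?_, ?_, ?_⟩
    · intro i v
      show (1 : ℝ) ≤ pP t T (f i) (bth i) X 0 v v
      rw [pP_zero, if_pos rfl]
    · intro i j y v hb
      show _ ≤ pY t T (f i) (bth i) X j y v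
      rw [pY_eq, if_pos hb]
    · intro i j w v
      exact le_of_eq (pP_succ j w v).symm
    · intro i j y v hb
      show pY t T (f i) (bth i) X j y v = 0
      rw [pY_eq, if_neg hb]
  · intro lo hlo
    refine ⟨?_, ?_, ?_⟩
    · intro v
      have h1 := hlo (0, v)
      simp only [ha0] at h1
      have h2 : (∑ c : Fin n, ∑ v', (if T.Adj v v' then (1 : ℝ) else 0) / s *
          (if lo c v' then 1 else 0)) =
          (((univ : Finset (Fin n × V)).filter fun x => T.Adj v x.2 ∧ lo x.1 x.2).card : ℝ) / s := by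
        rw [Finset.card_filter]
        push_cast
        rw [Fintype.sum_prod_type, Finset.sum_div]
        refine Finset.sum_congr rfl fun c _ => ?_
        rw [Finset.sum_div]
        refine Finset.sum_congr rfl fun v' _ => ?_
        show (if T.Adj v v' then (1 : ℝ) else 0) / s * (if lo c v' then (1 : ℝ) else 0) =
          (if T.Adj v v' ∧ lo c v' then (1 : ℝ) else 0) / s
        by_cases hT : T.Adj v v'
        · by_cases hl' : lo c v'
          · rw [if_pos hT, if_pos hl', if_pos ⟨hT, hl'⟩, mul_one]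
          · have hn : ¬ (T.Adj v v' ∧ lo c v') := fun h => hl' h.2
            rw [if_neg hl', if_neg hn, mul_zero, zero_div]
        · have hn : ¬ (T.Adj v v' ∧ lo c v') := fun h => hT h.1
          rw [if_neg hT, if_neg hn, zero_div, zero_mul]
      rw [h2, div_le_iff₀ hs0] at h1
      rw [mul_comm]
      exact h1
    · intro w
      have h1 := hlo (1, w)
      simp only [ha1] at h1
      have h2 : (∑ c : Fin n, ∑ v, (∑ j ∈ range l, (pY t T (f c) (bth c) X j w v +
          pP t T (f c) (bth c) X (j + 1) w v)) / (6 * s / t) * (if lo c v then (1 : ℝ) else 0)) =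
          (∑ c : Fin n, ∑ v, (∑ j ∈ range l, (pY t T (f c) (bth c) X j w v +
          pP t T (f c) (bth c) X (j + 1) w v)) * (if lo c v then (1 : ℝ) else 0)) /
            (6 * s / t) := by
        rw [Finset.sum_div]
        refine Finset.sum_congr rfl fun c _ => ?_
        rw [Finset.sum_div]
        refine Finset.sum_congr rfl fun v _ => ?_
        ring
      rw [h2, div_le_iff₀ D2] at h1
      refine h1.trans (le_trans (le_of_eq ?_) n5)
      ring
    · intro w
      have h1 := hlo (2, w)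
      simp only [ha2] at h1
      have h2 : (∑ c : Fin n, ∑ v, pP t T (f c) (bth c) X l w v / (2 * s / t * G ^ (l - 1)) *
          (if lo c v then (1 : ℝ) else 0)) =
          (∑ c : Fin n, ∑ v, pP t T (f c) (bth c) X l w v * (if lo c v then (1 : ℝ) else 0)) /
            (2 * s / t * G ^ (l - 1)) := by
        rw [Finset.sum_div]
        refine Finset.sum_congr rfl fun c _ => ?_
        rw [Finset.sum_div]
        refine Finset.sum_congr rfl fun v _ => ?_
        ring
      rw [h2, div_le_iff₀ D3] at h1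
      refine h1.trans (le_trans (le_of_eq ?_) n6)
      ring

end Pool.Agent.C4N.H48
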